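import Pool.Agent.W932.UR.Main

set_option autoImplicit false

/-!
# Representable functions on the Turing degrees that are not uniformly representable

For every `c` there is a function `f` on the Turing degrees that is represented by a Borel function,
but no representation of `f` with the property of Baire is uniform, not even on the cone above `c`.
Under the axiom of determinacy every function from Baire space to Baire space has the property of
Baire in the sense used here, so `f` is representable and not uniformly representable.
-/

namespace Pool.Agent.Results.MP_f59448_lc.NotUniform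

open Pool.Agent.W932.UR

/-- Turing equivalence of total functions (Mathlib's Turing equivalence). -/
def TuringEq (x y : ℕ → ℕ) : Prop :=
  TuringEquivalent (fun n => Part.some (x n)) (fun n => Part.some (y n))

/-- Turing equivalence as an equivalence relation on Baire space. -/
def degreeSetoid : Setoid (ℕ → ℕ) where
  r := TuringEq
  iseqv := ⟨fun _ => TuringEquivalent.refl _, fun h => h.symm,
    fun h1 h2 => TuringEquivalent.trans _ _ _ h1 h2⟩

/-- The Turing degrees. -/
def Degree : Type := Quotient degreeSetoid

/-- The degree of a function. -/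
def deg (x : ℕ → ℕ) : Degree := Quotient.mk degreeSetoid x

/-- `F` represents the function `f` on the degrees. -/
def Represents (F : (ℕ → ℕ) → (ℕ → ℕ)) (f : Degree → Degree) : Prop :=
  ∀ x, deg (F x) = f (deg x)

/-- The total function `c` is Turing reducible to the total function `x` (Mathlib's Turing
reducibility). -/
def Below (c x : ℕ → ℕ) : Prop :=
  TuringReducible (fun n => Part.some (c n)) (fun n => Part.some (x n))

/-- `F` represents the function `f` on the cone above `c`. -/
def RepresentsAbove (c : ℕ → ℕ) (F : (ℕ → ℕ) → (ℕ → ℕ)) (f : Degree → Degree) : Prop :=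
  ∀ x, Below c x → deg (F x) = f (deg x)

/-- Programs for oracle computations: the least class containing zero, successor, the two
unpairing functions and the oracle, and closed under pairing, composition, primitive recursion and
unbounded search. -/
inductive Program : Type
  | zero : Program
  | succ : Program
  | left : Program
  | right : Program
  | oracle : Program
  | pair : Program → Program → Program
  | comp : Program → Program → Program
  | prec : Program → Program → Program
  | rfind : Program → Program

/-- The partial function computed by a program with oracle `x`. -/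
def Program.eval (x : ℕ → ℕ) : Program → (ℕ → Part ℕ)
  | .zero => fun _ => Part.some 0
  | .succ => fun n => Part.some (n + 1)
  | .left => fun n => Part.some (Nat.unpair n).1
  | .right => fun n => Part.some (Nat.unpair n).2
  | .oracle => fun n => Part.some (x n)
  | .pair a b => fun n => (Nat.pair <$> a.eval x n <*> b.eval x n)
  | .comp a b => fun n => (b.eval x n).bind (a.eval x)
  | .prec a b => fun p =>
        (Nat.unpair p).2.rec (a.eval x (Nat.unpair p).1) fun y IH =>
          IH.bind fun i => b.eval x (Nat.pair (Nat.unpair p).1 (Nat.pair y i))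
  | .rfind a => fun p =>
        Nat.rfind fun n => (a.eval x (Nat.pair p n)).map (fun m => decide (m = 0))

/-- With respect to the enumeration `num` of the programs, `x` and `y` are Turing equivalent via
the index `e = ⟨i, j⟩`: the program number `i` computes `y` from `x` and the program number `j`
computes `x` from `y`. -/
def EqVia (num : ℕ → Program) (e : ℕ) (x y : ℕ → ℕ) : Prop :=
  (∀ n, (num (Nat.unpair e).1).eval x n = Part.some (y n)) ∧
    (∀ n, (num (Nat.unpair e).2).eval y n = Part.some (x n))

/-- On the cone above `c`, indices of equivalences are transformed by `t`: if `x` and `y` in this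
cone are Turing equivalent via `e`, then `F x` and `F y` are Turing equivalent via `t e`. -/
def UniformAbove (num : ℕ → Program) (c : ℕ → ℕ) (F : (ℕ → ℕ) → (ℕ → ℕ)) (t : ℕ → ℕ) : Prop :=
  ∀ (x y : ℕ → ℕ) (e : ℕ), Below c x → Below c y → EqVia num e x y → EqVia num (t e) (F x) (F y)

/-- `F` has the property of Baire: for every continuous map `c` from Cantor space to Baire space
and every open set `U`, the set `{w | F (c w) ∈ U}` has the property of Baire. -/
def HasBaireProperty (F : (ℕ → ℕ) → (ℕ → ℕ)) : Prop :=
  ∀ c : (ℕ → Bool) → (ℕ → ℕ), Continuous c → ∀ U : Set (ℕ → ℕ), IsOpen U →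
    BaireMeasurableSet {w | F (c w) ∈ U}

open Pool.Agent.Helper578.OG

/-- translation of programs -/
def tr : Program → OCode
  | .zero => .zero
  | .succ => .succ
  | .left => .left
  | .right => .right
  | .oracle => .oracle
  | .pair a b => .pair (tr a) (tr b)
  | .comp a b => .comp (tr a) (tr b)
  | .prec a b => .prec (tr a) (tr b)
  | .rfind a => .rfind (tr a)

theorem tr_surj : Function.Surjective tr := by
  intro c
  induction c with
  | zero => exact ⟨.zero, rfl⟩
  | succ => exact ⟨.succ, rfl⟩
  | left => exact ⟨.left, rfl⟩
  | right => exact ⟨.right, rfl⟩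
  | oracle => exact ⟨.oracle, rfl⟩
  | pair a b iha ihb =>
    obtain ⟨a, rfl⟩ := iha; obtain ⟨b, rfl⟩ := ihb; exact ⟨.pair a b, rfl⟩
  | comp a b iha ihb =>
    obtain ⟨a, rfl⟩ := iha; obtain ⟨b, rfl⟩ := ihb; exact ⟨.comp a b, rfl⟩
  | prec a b iha ihb =>
    obtain ⟨a, rfl⟩ := iha; obtain ⟨b, rfl⟩ := ihb; exact ⟨.prec a b, rfl⟩
  | rfind a iha =>
    obtain ⟨a, rfl⟩ := iha; exact ⟨.rfind a, rfl⟩

theorem eval_tr (x : ℕ → ℕ) (p : Program) : (tr p).eval (fun i => Part.some (x i)) = p.eval x := by
  induction p with
  | zero => rfl
  | succ => rfl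
  | left => rfl
  | right => rfl
  | oracle => rfl
  | pair a b iha ihb => simp only [tr, OCode.eval, Program.eval, iha, ihb]
  | comp a b iha ihb => simp only [tr, OCode.eval, Program.eval, iha, ihb]
  | prec a b iha ihb => simp only [tr, OCode.eval, Program.eval, iha, ihb]
  | rfind a iha => simp only [tr, OCode.eval, Program.eval, iha]

theorem eqVia_iff (num : ℕ → Program) (e : ℕ) (x y : ℕ → ℕ) :
    EqVia num e x y ↔ Via (tr (num e.unpair.1), tr (num e.unpair.2)) x y := by
  unfold EqVia Via Computes
  simp only [eval_tr, Part.eq_some_iff]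

theorem below_phi (c : ℕ → ℕ) (w : ℕ → Bool) : Below c (phi c w) := by
  obtain ⟨h, hh⟩ := exists_half
  exact red_iff.1 ⟨h, hh c (ph c w)⟩

theorem result :
    -- `EqVia` captures Turing equivalence
    (∀ num : ℕ → Program, Function.Surjective num →
      ∀ x y, TuringEq x y ↔ ∃ e, EqVia num e x y) ∧
    -- the examples; with the constant function `0` for `c` the cone is the whole space
    ∀ c : ℕ → ℕ, ∃ f : Degree → Degree,
      (∃ F₀ : (ℕ → ℕ) → (ℕ → ℕ), Measurable F₀ ∧ Represents F₀ f) ∧
      ∀ F : (ℕ → ℕ) → (ℕ → ℕ), HasBaireProperty F → RepresentsAbove c F f →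
        ∀ num : ℕ → Program, Function.Surjective num → ∀ t : ℕ → ℕ,
          ¬ UniformAbove num c F t := by
  refine ⟨?_, fun c => ?_⟩
  · intro num hnum x y
    have h : TuringEq x y ↔ ∃ e, Via e x y := via_iff.symm
    rw [h]
    constructor
    · rintro ⟨⟨c, d⟩, h⟩
      obtain ⟨i, hi⟩ := (tr_surj.comp hnum) c
      obtain ⟨j, hj⟩ := (tr_surj.comp hnum) d
      refine ⟨Nat.pair i j, (eqVia_iff _ _ _ _).2 ?_⟩
      simp only [Function.comp] at hi hj
      rw [Nat.unpair_pair]
      simp only [hi, hj]
      exact h
    · rintro ⟨e, h⟩
      exact ⟨_, (eqVia_iff _ _ _ _).1 h⟩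
  · refine ⟨Quotient.map (F0 c) fun x y h => F0_invariant h,
      ⟨F0 c, measurable_F0 c, fun x => rfl⟩, ?_⟩
    intro F hB hF num hnum t hcon
    obtain ⟨w, w', e, h1, h2⟩ := not_uniform c (tr ∘ num) (tr_surj.comp hnum) F
      (fun U hU => hB (phi c) phi_continuous U hU)
      (fun w => Quotient.exact (hF (phi c w) (below_phi c w))) t
    exact h2 ((eqVia_iff _ _ _ _).1
      (hcon _ _ e (below_phi c w) (below_phi c w') ((eqVia_iff _ _ _ _).2 h1)))

end Pool.Agent.Results.MP_f59448_lc.NotUniform
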